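import Mathlib
import Pool.Agent.H8.NO.Fin

/-!
# The chromatic index is reconstructible if at most three vertices have small degree

Let `G` and `H` be graphs on `n ≥ 3` vertices with the same deck. If at most three vertices of `G`
have degree less than the maximum degree, then `G` and `H` have the same chromatic index.

Proof: let `Δ` be the maximum degree and let `Z(U)` be the number of maps from the edges to `Δ`
colours that are proper at each vertex outside `U`. The deck determines `Z({u})` for each `u`, and
the sums of `Z({u, v})` over the adjacent pairs, and over the non-adjacent pairs, of given degrees.
Let `a ≥ b ≥ c` be the three largest values of `Δ - d(v)`. If `n` is even and `a ≥ b + c`, then a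
map which is proper outside the vertex of least degree is proper, and the deck determines `Z(∅)`.
If `n` is odd and `a + b ≥ c + Δ - 3`, then a map which is proper outside two vertices of the same
degrees as the two vertices of least degree is proper at one of them, so that
`Z({u, v}) + Z(∅) = Z({u}) + Z({v})` and again the deck determines `Z(∅)`. In the other cases the
graph is overfull, or `c ≥ 2` and then some vertex can be put back to its card in one way only.
-/

set_option autoImplicit false

open Finset

namespace Pool.Agent.Results.MP_47bc00_co.FewSmallVertices

open Pool.Agent.H8.NO

/-- Let `G` and `H` be graphs on `n ≥ 3` vertices with the same deck. If at most three vertices of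
`G` have degree less than the maximum degree, then `G` and `H` have the same chromatic index
(chromatic number of the line graph). -/
theorem result (n : ℕ) (hn : 3 ≤ n) (G H : SimpleGraph (Fin n)) [DecidableRel G.Adj]
    (hdeck : ∃ σ : Fin n ≃ Fin n, ∀ v : Fin n,
      Nonempty (G.induce {w : Fin n | w ≠ v} ≃g H.induce {w : Fin n | w ≠ σ v}))
    (hfew : (univ.filter fun v => G.degree v < G.maxDegree).card ≤ 3) :
    G.lineGraph.chromaticNumber = H.lineGraph.chromaticNumber := by
  apply frame hn G H hdeck
  intro σ hd hn' hG hk
  refine ecol_iff_of_Z hk (few_case hd hn' hk hG ?_)
  simpa only [dg_eq] using hfew

end Pool.Agent.Results.MP_47bc00_co.FewSmallVertices
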