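import Mathlib
import Pool.Agent.H70.CI.Final

/-!
# Reconstruction of the chromatic index from adjacencies of vertices of maximum degree

Proof: if a card needs `Δ + 1` colours, so do both graphs. Otherwise, if `G` needs `Δ + 1` colours,
an edge-critical subgraph of `G` is spanning, and by Vizing's adjacency lemma each vertex `y` has
two neighbours `x` of degree `Δ` with more than `Δ - d(y)` neighbours of degree `Δ` other than `y`.
The total number of such pairs `(x, y)` with `d(y) = k` is determined by the deck.
-/

set_option autoImplicit false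

open Finset

namespace Pool.Agent.Results.MP_47bc00_co.MaxDegreeAdjacency

open Pool.Agent.H70.CI Pool.Agent.H15.EC

/-- Let `G` and `H` be graphs on `n ≥ 3` vertices with the same deck, `Δ` the maximum degree of
`G` and `k` a number. Let `P` be the set of pairs `(x, y)` of adjacent vertices of `G` with
`d(x) = Δ` and `d(y) = k` such that `x` has more than `Δ - k` neighbours of degree `Δ` other than
`y`. If `|P|` is less than twice the number of vertices of degree `k`, then `G` and `H` have the
same chromatic index (the chromatic number of the line graph). -/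
theorem result (n : ℕ) (hn : 3 ≤ n) (G H : SimpleGraph (Fin n)) [DecidableRel G.Adj]
    (hdeck : ∃ σ : Fin n ≃ Fin n, ∀ v : Fin n,
      Nonempty (G.induce {w : Fin n | w ≠ v} ≃g H.induce {w : Fin n | w ≠ σ v}))
    (k : ℕ)
    (hP : (univ.filter fun p : Fin n × Fin n => G.Adj p.1 p.2 ∧ G.degree p.1 = G.maxDegree ∧
        G.degree p.2 = k ∧
        G.maxDegree < k + (univ.filter fun z => G.Adj p.1 z ∧ z ≠ p.2 ∧
          G.degree z = G.maxDegree).card).card <
      2 * (univ.filter fun y => G.degree y = k).card) :
    G.lineGraph.chromaticNumber = H.lineGraph.chromaticNumber := by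
  classical
  obtain ⟨σ, hσ⟩ := hdeck
  have hd := deck_of hσ
  have hcard : 3 ≤ Fintype.card (Fin n) := by rwa [Fintype.card_fin]
  have hdeg : ∀ v, dg G v ≤ G.maxDegree := fun v => by
    rw [dg_eq_degree]; exact G.degree_le_maxDegree v
  have : Nonempty (Fin n) := ⟨⟨0, by omega⟩⟩
  obtain ⟨v0, hv0⟩ := G.exists_maximal_degree_vertex
  have hatt : ∃ v, dg G v = G.maxDegree := ⟨v0, by rw [dg_eq_degree, hv0]⟩
  have hdegH : ∀ v, dg H v ≤ G.maxDegree := by
    intro v
    have := dg_rec hd hcard (σ.symm v)
    rw [σ.apply_symm_apply] at this
    rw [← this]; exact hdeg _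
  have hbig : ∀ x y, (big G G.maxDegree x y).ncard =
      (univ.filter fun z => G.Adj x z ∧ z ≠ y ∧ G.degree z = G.maxDegree).card := by
    intro x y
    rw [← Set.ncard_coe_finset]
    congr 1
    ext z
    simp [big, dg_eq_degree]
  have hlt : (pairs G G.maxDegree k).card < 2 * Nj G k := by
    have e1 : (pairs G G.maxDegree k).card =
        (univ.filter fun p : Fin n × Fin n => G.Adj p.1 p.2 ∧ G.degree p.1 = G.maxDegree ∧
        G.degree p.2 = k ∧
        G.maxDegree < k + (univ.filter fun z => G.Adj p.1 z ∧ z ≠ p.2 ∧
          G.degree z = G.maxDegree).card).card := by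
      unfold pairs
      congr 1
      ext p
      simp only [mem_filter, mem_univ, true_and, hbig, dg_eq_degree, Nat.succ_le_iff]
      tauto
    have e2 : Nj G k = (univ.filter fun y => G.degree y = k).card := by
      unfold Nj
      congr 1
      ext y
      simp only [mem_filter, mem_univ, true_and, dg_eq_degree]
    rw [e1, e2]
    exact hP
  apply chi_eq hd hcard hdeg hatt
  · intro h
    have h1 := two_le_pairs hdeg h k
    omega
  · intro h
    have h1 := two_le_pairs hdegH h k
    rw [← pairs_rec hd hcard, ← Nj_rec hd hcard] at h1
    omega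

end Pool.Agent.Results.MP_47bc00_co.MaxDegreeAdjacency
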