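import Mathlib
import Pool.Agent.H8.NO.Fin

/-!
# The chromatic index is reconstructible near the overfull threshold

Let `G` and `H` be graphs on `n ≥ 3` vertices with the same deck, `n` odd, and let `G` have maximum
degree `Δ` and `e` edges. If `2 e + 4 > Δ (n - 3) + 2 d(u) + 2 d(v)` for some two vertices `u`, `v`,
then `G` and `H` have the same chromatic index.

Proof: let `Z(U)` be the number of maps from the edges to `Δ` colours that are proper at each
vertex outside `U`. The deck determines `Z({u})` for each `u`, and the sums of `Z({u, v})` over the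
adjacent pairs, and over the non-adjacent pairs, of given degrees. Under the hypothesis a count of
the colour classes on `G - u - v` shows that a map which is proper outside `u`, `v` is proper at
`u` or at `v`, so that `Z({u, v}) + Z(∅) = Z({u}) + Z({v})`. We sum over all pairs of the same kind
to see that the deck determines `Z(∅)`.
-/

set_option autoImplicit false

open Finset

namespace Pool.Agent.Results.MP_47bc00_co.NearOverfull

open Pool.Agent.H8.NO

/-- Let `G` and `H` be graphs on `n ≥ 3` vertices with the same deck, where `n` is odd. If
`2 e + 4 > Δ (n - 3) + 2 d(u) + 2 d(v)` for some two vertices `u`, `v` of `G`, then `G` and `H`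
have the same chromatic index (chromatic number of the line graph). -/
theorem result (n : ℕ) (hn : 3 ≤ n) (hodd : Odd n) (G H : SimpleGraph (Fin n))
    [DecidableRel G.Adj]
    (hdeck : ∃ σ : Fin n ≃ Fin n, ∀ v : Fin n,
      Nonempty (G.induce {w : Fin n | w ≠ v} ≃g H.induce {w : Fin n | w ≠ σ v}))
    (hpair : ∃ u v, u ≠ v ∧ G.maxDegree * (n - 3) + 2 * G.degree u + 2 * G.degree v <
      2 * G.edgeFinset.card + 4) :
    G.lineGraph.chromaticNumber = H.lineGraph.chromaticNumber := by
  apply frame hn G H hdeck
  intro σ hd hn' hG hk
  obtain ⟨u, v, huv, h⟩ := hpair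
  refine ecol_iff_of_Z hk (odd_case hd hn' hk hG (by rwa [Fintype.card_fin]) huv ?_)
  rw [Fintype.card_fin, dg_eq, dg_eq, Ds_eq]
  exact h

end Pool.Agent.Results.MP_47bc00_co.NearOverfull
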