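import Mathlib
import Pool.Agent.H15.EC.Colour
import Pool.Agent.H28.VAL

/-!
# The chromatic index is reconstructible for graphs of maximum degree at most three

If `G` and `H` are graphs on `n ≥ 3` vertices with the same deck and `G` has maximum degree at
most three, then `G` and `H` have the same chromatic index.

Proof: the number of proper `3`-edge-colourings of a graph of maximum degree at most three (with
positive weights at the vertices that depend on the degree only) is the partition function of a
spin model on the vertices. One state of the model does not interact at all and the others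
interact as in the Potts model, so that Kelly's lemma and a lemma of Kocay's kind reconstruct it.
The same works for two colours. The theorem of Vizing gives four colours.
-/

set_option autoImplicit false

open Finset

namespace Pool.Agent.Results.MP_47bc00_co.SubcubicChromaticIndex

open Pool.Agent.H15.EC

variable {n : ℕ}

lemma deck_of {G H : SimpleGraph (Fin n)} {σ : Fin n ≃ Fin n}
    (h : ∀ v : Fin n,
      Nonempty (G.induce {w : Fin n | w ≠ v} ≃g H.induce {w : Fin n | w ≠ σ v})) :
    Deck G H σ := by
  intro v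
  obtain ⟨φ⟩ := h v
  let e : {x : Fin n // x ≠ v} ≃ {x : Fin n // x ≠ σ v} := φ.toEquiv
  refine ⟨e.extendSubtype, ?_, ?_⟩
  · have := Equiv.extendSubtype_not_mem e v (by simp)
    simpa using this
  · intro x hx y hy
    have hx' : x ≠ v := (mem_erase.1 hx).1
    have hy' : y ≠ v := (mem_erase.1 hy).1
    rw [Equiv.extendSubtype_apply_of_mem e x hx', Equiv.extendSubtype_apply_of_mem e y hy']
    have h1 := φ.map_rel_iff (a := ⟨x, hx'⟩) (b := ⟨y, hy'⟩)
    exact h1.symm

lemma inc_eq_degree (G : SimpleGraph (Fin n)) [DecidableRel G.Adj] (v : Fin n) :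
    inc G v = G.degree v := by
  classical
  rw [← SimpleGraph.card_incidenceFinset_eq_degree, inc]
  congr 1
  ext e
  simp [SimpleGraph.incidenceSet]

lemma inc_le_of_colorable {G : SimpleGraph (Fin n)} {k : ℕ} (h : G.lineGraph.Colorable k)
    (v : Fin n) : inc G v ≤ k := by
  classical
  obtain ⟨f, hf⟩ := (colorable_iff G).1 h
  rw [← card_inc, ← Fintype.card_fin k, ← Finset.card_univ]
  apply Finset.card_le_card_of_injOn f (fun _ _ => mem_univ _)
  intro e he e' he' hee
  apply hf v _ _ hee
  · simpa using he
  · simpa using he'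

lemma colorable_of_inc_le_one {G : SimpleGraph (Fin n)} {k : ℕ} (hk : k ≤ 1)
    (h : ∀ v, inc G v ≤ k) : G.lineGraph.Colorable k := by
  classical
  rw [colorable_iff]
  rcases Nat.le_one_iff_eq_zero_or_eq_one.1 hk with rfl | rfl
  · have hE : ∀ e : G.edgeSet, False := by
      rintro ⟨e, he⟩
      induction e with
      | _ a b =>
        have h1 := h a
        rw [Nat.le_zero, ← card_inc, Finset.card_eq_zero, Finset.filter_eq_empty_iff] at h1
        exact h1 (mem_univ (⟨s(a, b), he⟩ : G.edgeSet)) (Sym2.mem_mk_left a b)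
    exact ⟨fun e => (hE e).elim, fun v e => (hE e).elim⟩
  · refine ⟨fun _ => 0, fun v e he e' he' _ => ?_⟩
    have h1 := h v
    rw [← card_inc, Finset.card_le_one] at h1
    exact h1 e (by simpa using he) e' (by simpa using he')

lemma colorable_four {G : SimpleGraph (Fin n)} (h : ∀ v, inc G v ≤ 3) :
    G.lineGraph.Colorable 4 := by
  classical
  have h1 : ∀ v, (G.neighborSet v).ncard ≤ 3 := by
    intro v
    have := h v
    rw [inc_eq_degree, ← SimpleGraph.card_neighborSet_eq_degree] at this
    rwa [Set.ncard_eq_toFinset_card', Set.toFinset_card]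
  obtain ⟨c, hc1, hc2⟩ := Pool.Agent.H28.vizing (d := 3) h1
  have hlt : ∀ e : G.edgeSet, c e < 4 := by
    rintro ⟨e, he⟩
    induction e with
    | _ a b => exact hc1 a b he
  rw [colorable_iff]
  refine ⟨fun e => ⟨c e, hlt e⟩, fun v e he e' he' hee => ?_⟩
  by_contra hne
  obtain ⟨a, ha⟩ := he
  obtain ⟨b, hb⟩ := he'
  have hea : s(v, a) ∈ G.edgeSet := ha ▸ e.2
  have heb : s(v, b) ∈ G.edgeSet := hb ▸ e'.2
  have hab : a ≠ b := by
    rintro rfl
    exact hne (Subtype.ext (ha.trans hb.symm))
  have h2 := hc2 v a b hea heb hab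
  rw [← ha, ← hb] at h2
  exact h2 (Fin.mk.inj_iff.1 hee)

lemma colorable_iff_of_deck {G H : SimpleGraph (Fin n)} {σ : Fin n ≃ Fin n} (hn : 3 ≤ n)
    (hd : Deck G H σ) (hG : ∀ v, inc G v ≤ 3) (k : ℕ) :
    G.lineGraph.Colorable k ↔ H.lineGraph.Colorable k := by
  have hcard : 3 ≤ Fintype.card (Fin n) := by rwa [Fintype.card_fin]
  have hinc : ∀ v, inc G v = inc H (σ v) := inc_rec hd hcard
  have hdeg : ∀ j, (∀ v, inc G v ≤ j) ↔ (∀ v, inc H v ≤ j) := by
    intro j
    constructor
    · intro h v
      have := h (σ.symm v)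
      rwa [hinc, Equiv.apply_symm_apply] at this
    · intro h v
      rw [hinc]; exact h _
  have hH : ∀ v, inc H v ≤ 3 := (hdeg 3).1 hG
  by_cases hk : k ≤ 1
  · constructor
    · intro h
      exact colorable_of_inc_le_one hk ((hdeg k).1 fun v => inc_le_of_colorable h v)
    · intro h
      exact colorable_of_inc_le_one hk ((hdeg k).2 fun v => inc_le_of_colorable h v)
  by_cases hk4 : 4 ≤ k
  · exact iff_of_true ((colorable_four hG).mono hk4) ((colorable_four hH).mono hk4)
  obtain rfl | rfl : k = 2 ∨ k = 3 := by omega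
  · by_cases h2 : ∀ v, inc G v ≤ 2
    · rw [← WW_pos_iff (by norm_num) good2 G h2, ← WW_pos_iff (by norm_num) good2 H ((hdeg 2).1 h2),
        WW_rec hd hcard 20 10 good2.rd0]
    · exact iff_of_false (fun h => h2 fun v => inc_le_of_colorable h v)
        (fun h => h2 ((hdeg 2).2 fun v => inc_le_of_colorable h v))
  · rw [← WW_pos_iff (by norm_num) good3 G hG, ← WW_pos_iff (by norm_num) good3 H hH,
      WW_rec hd hcard 27 9 good3.rd0]

/-- Two graphs on `n ≥ 3` vertices with the same deck, one of which has maximum degree at most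
three, have the same chromatic index (the chromatic number of the line graph). -/
theorem result (n : ℕ) (hn : 3 ≤ n) (G H : SimpleGraph (Fin n)) [DecidableRel G.Adj]
    (hdeck : ∃ σ : Fin n ≃ Fin n, ∀ v : Fin n,
      Nonempty (G.induce {w : Fin n | w ≠ v} ≃g H.induce {w : Fin n | w ≠ σ v}))
    (hdeg : G.maxDegree ≤ 3) :
    G.lineGraph.chromaticNumber = H.lineGraph.chromaticNumber := by
  obtain ⟨σ, hσ⟩ := hdeck
  have hd := deck_of hσ
  have hG : ∀ v, inc G v ≤ 3 := fun v => by
    rw [inc_eq_degree]
    exact (G.degree_le_maxDegree v).trans hdeg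
  have h := colorable_iff_of_deck hn hd hG
  apply le_antisymm
  · rcases eq_or_ne H.lineGraph.chromaticNumber ⊤ with ht | ht
    · rw [ht]; exact le_top
    · obtain ⟨m, hm⟩ := ENat.ne_top_iff_exists.1 ht
      rw [← hm, SimpleGraph.chromaticNumber_le_iff_colorable, h,
        ← SimpleGraph.chromaticNumber_le_iff_colorable, hm]
  · rcases eq_or_ne G.lineGraph.chromaticNumber ⊤ with ht | ht
    · rw [ht]; exact le_top
    · obtain ⟨m, hm⟩ := ENat.ne_top_iff_exists.1 ht
      rw [← hm, SimpleGraph.chromaticNumber_le_iff_colorable, ← h,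
        ← SimpleGraph.chromaticNumber_le_iff_colorable, hm]

end Pool.Agent.Results.MP_47bc00_co.SubcubicChromaticIndex
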